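import Pool.Agent.D0H4.Gam.Count

/-!
# The exponentials `exp (x₀ + x₁ λ₁ + ... + xₖ λₖ)`: algebraic only in the obvious cases
-/

set_option autoImplicit false

namespace Pool.Agent.D0H4.Gam

open Finset Pool.Agent.H301R2.SSE

/-- **Baker**: for `ℚ`-linearly independent logarithms `λᵢ` of algebraic numbers and algebraic `xᵢ` the
number `exp (x₀ + ∑ xᵢ λᵢ)` is algebraic only if `x₀ = 0` and all `xᵢ` are rational -/
theorem baker_exp {k : ℕ} (lam : Fin k → ℂ) (hlam : ∀ i, IsAlgebraic ℚ (Complex.exp (lam i)))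
    (hli : LinearIndependent ℚ lam) (x₀ : ℂ) (hx₀ : IsAlgebraic ℚ x₀) (x : Fin k → ℂ)
    (hx : ∀ i, IsAlgebraic ℚ (x i)) (h : IsAlgebraic ℚ (Complex.exp (x₀ + ∑ i, x i * lam i))) :
    x₀ = 0 ∧ ∀ i, ∃ q : ℚ, x i = q := by
  set μ : ℂ := x₀ + ∑ i, x i * lam i with hμ
  by_cases hind : LinearIndependent ℚ (Fin.cons μ lam : Fin (k + 1) → ℂ)
  · exfalso
    have := (Pool.Agent.H297R2.baker_inhom (Fin.cons μ lam : Fin (k + 1) → ℂ) (by
      intro i
      refine Fin.cases ?_ (fun j => ?_) i
      · simpa using h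
      · simpa using hlam j) hind x₀ hx₀ (Fin.cons (-1) x : Fin (k + 1) → ℂ) (by
      intro i
      refine Fin.cases ?_ (fun j => ?_) i
      · simpa using isAlgebraic_one.neg
      · simpa using hx j) (by
      rw [Fin.sum_univ_succ]
      simp only [Fin.cons_zero, Fin.cons_succ]
      rw [hμ]
      ring)).2 0
    simp at this
  · rw [linearIndependent_finCons] at hind
    push Not at hind
    have hmem := hind hli
    rw [Submodule.mem_span_range_iff_exists_fun] at hmem
    obtain ⟨q, hq⟩ := hmem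
    have hB := Pool.Agent.H297R2.baker_inhom lam hlam hli x₀ hx₀ (fun i => x i - (q i : ℂ)) (by
      intro i
      refine (hx i).sub ?_
      exact isAlgebraic_algebraMap (q i)) (by
      have e : ∑ i, (x i - (q i : ℂ)) * lam i = ∑ i, x i * lam i - ∑ i, q i • lam i := by
        rw [← sum_sub_distrib]
        refine sum_congr rfl (fun i _ => ?_)
        rw [Rat.smul_def]
        ring
      rw [e, hq, hμ]
      ring)
    exact ⟨hB.1, fun i => ⟨q i, sub_eq_zero.mp (hB.2 i)⟩⟩

/-- multiplication by `exp` of a rational combination of logarithms does not change `Lt` -/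
theorem mul_rat {k : ℕ} (lam : Fin k → ℂ) (hlam : ∀ i, IsAlgebraic ℚ (Complex.exp (lam i)))
    (q : Fin k → ℚ) : IsAlgebraic ℚ (Complex.exp (∑ i, (q i : ℂ) * lam i)) := by
  rw [Complex.exp_sum]
  have : ∀ i, IsAlgebraic ℚ (Complex.exp ((q i : ℂ) * lam i)) := by
    intro i
    have hden : ((q i).den : ℂ) ≠ 0 := by exact_mod_cast (q i).den_nz
    have h1 : Complex.exp ((q i : ℂ) * lam i) ^ (q i).den = Complex.exp (lam i) ^ (q i).num := by
      rw [← Complex.exp_nat_mul, ← Complex.exp_int_mul]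
      congr 1
      rw [← mul_assoc]
      congr 1
      have := Rat.mul_den_eq_num (q i)
      have h2 : ((q i : ℚ) : ℂ) * ((q i).den : ℂ) = ((q i).num : ℂ) := by
        exact_mod_cast congrArg (fun z : ℚ => (z : ℂ)) this
      rw [mul_comm]
      exact h2
    have h2 : IsAlgebraic ℚ (Complex.exp ((q i : ℂ) * lam i) ^ (q i).den) := by
      rw [h1]
      have halg : ∀ n : ℤ, IsAlgebraic ℚ (Complex.exp (lam i) ^ n) := by
        intro n
        cases n with
        | ofNat n => simpa using (hlam i).pow n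
        | negSucc n => simpa [zpow_negSucc] using ((hlam i).pow (n + 1)).inv
      exact halg _
    exact h2.of_pow (q i).pos
  rw [← mem_QB]
  exact prod_mem (fun i _ => mem_QB.mpr (this i))

theorem Lt_mul_iff {a z : ℂ} (ha : IsAlgebraic ℚ a) (ha0 : a ≠ 0) : a * z ∈ Lt ↔ z ∈ Lt := by
  constructor
  · intro h
    have := Lt_mul ha.inv h
    rwa [← mul_assoc, inv_mul_cancel₀ ha0, one_mul] at this
  · exact Lt_mul ha

end Pool.Agent.D0H4.Gam
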