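import Pool.Agent.D0H4.Gam.Pencil

/-!
# Counting exceptional exponents by differences
-/

set_option autoImplicit false

namespace Pool.Agent.D0H4.Gam

open Finset Pool.Agent.H301R2.SSE
open scoped Pointwise

/-- a set in which every nonzero difference occurs at most `R` times -/
theorem card_sq_le {G : Type*} [AddCommGroup G] [DecidableEq G] (A E : Finset G) (hEA : E ⊆ A)
    (R : ℕ) (h : ∀ δ : G, δ ≠ 0 → #{x ∈ E | x + δ ∈ E} ≤ R) :
    #E ^ 2 ≤ #E + R * (#(A - A) - 1) := by
  rcases E.eq_empty_or_nonempty with rfl | ⟨e, he⟩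
  · simp
  have h0 : (0 : G) ∈ A - A := by
    rw [← sub_self e]
    exact sub_mem_sub (hEA he) (hEA he)
  have hmap : ∀ p ∈ E ×ˢ E, p.2 - p.1 ∈ A - A := by
    intro p hp
    rw [mem_product] at hp
    exact sub_mem_sub (hEA hp.2) (hEA hp.1)
  have hcard := card_eq_sum_card_fiberwise hmap
  rw [card_product, ← pow_two] at hcard
  rw [hcard, ← add_sum_erase _ _ h0]
  have hfib : ∀ δ : G, #{p ∈ E ×ˢ E | p.2 - p.1 = δ} ≤ #{x ∈ E | x + δ ∈ E} := by
    intro δ
    refine card_le_card_of_injOn Prod.fst ?_ ?_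
    · intro p hp
      simp only [coe_filter, mem_product, Set.mem_setOf_eq] at hp ⊢
      refine ⟨hp.1.1, ?_⟩
      rw [← hp.2]
      simpa using hp.1.2
    · intro p hp q hq hpq
      simp only [coe_filter, mem_product, Set.mem_setOf_eq] at hp hq
      have h2 : p.2 = q.2 := by
        have h3 := hp.2
        have h4 := hq.2
        rw [← h4, hpq] at h3
        exact sub_left_injective h3
      exact Prod.ext hpq h2
  refine add_le_add ?_ ?_
  · refine le_trans (hfib 0) ?_
    exact card_le_card (filter_subset _ _)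
  · rw [← card_erase_of_mem h0, mul_comm, ← smul_eq_mul]
    refine sum_le_card_nsmul _ _ _ ?_
    intro δ hδ
    exact le_trans (hfib δ) (h δ (ne_of_mem_erase hδ))

theorem le_of_sq {e : ℕ} {D : ℕ} (h : e ^ 2 ≤ e + D) : (e : ℝ) ≤ 1 + Real.sqrt D := by
  by_contra hcon
  push Not at hcon
  have h1 : Real.sqrt D < (e : ℝ) - 1 := by linarith
  have h0 := Real.sqrt_nonneg (D : ℝ)
  have h2 : (D : ℝ) = Real.sqrt D ^ 2 := (Real.sq_sqrt (Nat.cast_nonneg D)).symm
  have h3 : (e : ℝ) ^ 2 ≤ e + D := by exact_mod_cast h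
  nlinarith

/-- more vectors than coordinates satisfy an integer relation with sum zero -/
theorem relation {ι κ : Type*} [Fintype ι] [Fintype κ] (f : κ → ι → ℤ)
    (hc : Fintype.card ι + 1 < Fintype.card κ) :
    ∃ n : κ → ℤ, n ≠ 0 ∧ ∑ k, n k = 0 ∧ ∑ k, n k • f k = 0 := by
  have hnl : ¬ LinearIndependent ℤ (fun k => ((1 : ℤ), f k)) := by
    intro hl
    have := hl.fintype_card_le_finrank
    rw [Module.finrank_prod, Module.finrank_self, Module.finrank_fintype_fun_eq_card] at this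
    omega
  rw [Fintype.not_linearIndependent_iff] at hnl
  obtain ⟨n, hn, i, hi⟩ := hnl
  refine ⟨n, fun h0 => hi (by rw [h0]; rfl), ?_, ?_⟩
  · have := congrArg Prod.fst hn
    simpa [Prod.fst_sum] using this
  · have := congrArg Prod.snd hn
    simpa [Prod.snd_sum] using this

/-- the linear form with coefficients `l` -/
noncomputable def lin {ι : Type*} [Fintype ι] (l : ι → ℂ) (n : ι → ℤ) : ℂ := ∑ i, (n i : ℂ) * l i

theorem lin_add {ι : Type*} [Fintype ι] (l : ι → ℂ) (m n : ι → ℤ) :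
    lin l (m + n) = lin l m + lin l n := by
  unfold lin
  rw [← sum_add_distrib]
  refine sum_congr rfl (fun i _ => ?_)
  rw [Pi.add_apply]
  push_cast
  ring

theorem lin_zero {ι : Type*} [Fintype ι] (l : ι → ℂ) : lin l 0 = 0 := by
  unfold lin
  simp

theorem lin_neg {ι : Type*} [Fintype ι] (l : ι → ℂ) (m : ι → ℤ) : lin l (-m) = -lin l m := by
  unfold lin
  rw [← sum_neg_distrib]
  refine sum_congr rfl (fun i _ => ?_)
  rw [Pi.neg_apply]
  push_cast
  ring

theorem lin_sub {ι : Type*} [Fintype ι] (l : ι → ℂ) (m n : ι → ℤ) :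
    lin l (m - n) = lin l m - lin l n := by
  rw [sub_eq_add_neg, lin_add, lin_neg, sub_eq_add_neg]

theorem lin_smul_sum {ι κ : Type*} [Fintype ι] [Fintype κ] (l : ι → ℂ) (n : κ → ℤ)
    (f : κ → ι → ℤ) : ∑ k, (n k : ℂ) * lin l (f k) = lin l (∑ k, n k • f k) := by
  unfold lin
  simp only [mul_sum, Finset.sum_apply, Pi.smul_apply, smul_eq_mul]
  rw [sum_comm]
  refine sum_congr rfl (fun i _ => ?_)
  push_cast
  rw [sum_mul]
  exact sum_congr rfl (fun k _ => by ring)

/-- at most `r + 1` elements of a free multiplicative group of rank `r` without algebraic elements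
lie in a pencil `{y : v y, v' y linear forms}` -/
theorem pair_count {ι : Type*} [Fintype ι] (l : ι → ℂ)
    (hl : ∀ n : ι → ℤ, n ≠ 0 → Transcendental ℚ (Complex.exp (lin l n))) {v v' : ℂ} (hv' : v' ≠ 0)
    (htr : Transcendental ℚ (v / v')) (S : Finset (ι → ℤ))
    (hS : ∀ n ∈ S, v * Complex.exp (lin l n) ∈ Lt) (hS' : ∀ n ∈ S, v' * Complex.exp (lin l n) ∈ Lt) :
    #S ≤ Fintype.card ι + 1 := by
  classical
  by_contra hcon
  push Not at hcon
  have hc : Fintype.card ι + 1 < Fintype.card S := by rwa [Fintype.card_coe]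
  obtain ⟨n, hn0, hn1, hn2⟩ := relation (fun k : S => (k : ι → ℤ)) hc
  apply hn0
  refine structureT hv' htr (fun k : S => lin l (k : ι → ℤ)) ?_ ?_ ?_ n hn1 ?_
  · intro i j hij
    rw [← lin_sub]
    apply hl
    intro h0
    exact hij (Subtype.ext (sub_eq_zero.mp h0))
  · exact fun k => hS k k.2
  · exact fun k => hS' k k.2
  · rw [lin_smul_sum, hn2, lin_zero, Complex.exp_zero]
    exact isAlgebraic_one

open Classical in
/-- **Counting theorem.** -/
theorem count {ι : Type*} [Fintype ι] (l : ι → ℂ)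
    (hl : ∀ n : ι → ℤ, n ≠ 0 → Transcendental ℚ (Complex.exp (lin l n))) {v : ℂ} (hv : v ≠ 0)
    (A : Finset (ι → ℤ)) :
    (#{n ∈ A | v * Complex.exp (lin l n) ∈ Lt}) ^ 2 ≤ #{n ∈ A | v * Complex.exp (lin l n) ∈ Lt} +
      (Fintype.card ι + 1) * (#(A - A) - 1) := by
  refine card_sq_le A _ (filter_subset _ _) _ ?_
  intro δ hδ
  refine pair_count l hl (v := v * Complex.exp (lin l δ)) (v' := v) hv ?_ _ ?_ ?_
  · rw [mul_div_assoc, mul_comm, div_mul_cancel_of_imp (fun h => absurd h hv)]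
    exact hl δ hδ
  · intro n hn
    simp only [mem_filter] at hn
    have := hn.2.2
    rw [lin_add, Complex.exp_add] at this
    have e : v * Complex.exp (lin l δ) * Complex.exp (lin l n) =
        v * (Complex.exp (lin l n) * Complex.exp (lin l δ)) := by ring
    rw [e]
    exact this
  · intro n hn
    simp only [mem_filter] at hn
    exact hn.1.2

/-- the box `[0, N)^ι` -/
noncomputable def box (ι : Type*) [Fintype ι] [DecidableEq ι] (N : ℕ) : Finset (ι → ℤ) :=
  Fintype.piFinset (fun _ => Ico (0 : ℤ) N)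

theorem box_sub (ι : Type*) [Fintype ι] [DecidableEq ι] (N : ℕ) :
    #(box ι N - box ι N) ≤ (2 * N) ^ Fintype.card ι := by
  have hsub : box ι N - box ι N ⊆ Fintype.piFinset (fun _ => Ico (-N : ℤ) N) := by
    intro x hx
    rw [mem_sub] at hx
    obtain ⟨y, hy, z, hz, rfl⟩ := hx
    rw [Fintype.mem_piFinset]
    intro i
    have h1 := (Fintype.mem_piFinset.mp hy) i
    have h2 := (Fintype.mem_piFinset.mp hz) i
    rw [mem_Ico] at h1 h2 ⊢
    rw [Pi.sub_apply]
    constructor <;> omega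
  refine le_trans (card_le_card hsub) ?_
  rw [Fintype.card_piFinset]
  simp only [Int.card_Ico, prod_const, card_univ]
  apply le_of_eq
  congr 1
  omega

open Classical in
/-- boxes: at most `1 + √((r + 1) (2 N) ^ r)` of the `N ^ r` exponents -/
theorem count_box {ι : Type*} [Fintype ι] [DecidableEq ι] (l : ι → ℂ)
    (hl : ∀ n : ι → ℤ, n ≠ 0 → Transcendental ℚ (Complex.exp (lin l n))) {v : ℂ} (hv : v ≠ 0)
    (N : ℕ) :
    (#{n ∈ box ι N | v * Complex.exp (lin l n) ∈ Lt} : ℝ) ≤
      1 + Real.sqrt ((Fintype.card ι + 1) * (2 * N) ^ Fintype.card ι) := by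
  have h1 := count l hl hv (box ι N)
  have h2 := box_sub ι N
  have h3 : (Fintype.card ι + 1) * (#(box ι N - box ι N) - 1) ≤
      (Fintype.card ι + 1) * (2 * N) ^ Fintype.card ι :=
    Nat.mul_le_mul_left _ (le_trans (Nat.sub_le _ _) h2)
  have h4 := le_of_sq (le_trans h1 (Nat.add_le_add_left h3 _))
  push_cast at h4
  exact h4

end Pool.Agent.D0H4.Gam
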