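import Pool.Agent.H301R2.SSE.Forms

/-!
# Multiplicative relations in a pencil of transcendental numbers

If `X` is transcendental, the numbers `α + β X` with algebraic `α`, `β` are essentially the linear
forms of the polynomial ring `Q̄[X]`; by unique factorisation pairwise non-proportional ones satisfy
no multiplicative relation modulo algebraic numbers.
-/

set_option autoImplicit false

namespace Pool.Agent.D0H4.Gam

open Polynomial Pool.Agent.H301R2.SSE

/-- a transcendental number is transcendental over the field of algebraic numbers -/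
theorem tr_QB {x : ℂ} (hx : Transcendental ℚ x) : Transcendental QB x := by
  intro h
  haveI : Algebra.IsAlgebraic ℚ QB := algebraicClosure.isAlgebraic ℚ ℂ
  exact hx (IsAlgebraic.restrictScalars ℚ h)

/-- no multiplicative relations between pairwise non-proportional linear forms in a transcendental
number -/
theorem units_pencil {ι : Type*} (s : Finset ι) {x : ℂ} (hx : Transcendental ℚ x) (α β : ι → QB)
    (hβ0 : ∀ i ∈ s, β i ≠ 0) (hne : ∀ i ∈ s, ∀ j ∈ s, i ≠ j → α i * β j ≠ α j * β i) (n : ι → ℤ)
    (h : IsAlgebraic ℚ (∏ i ∈ s, ((α i : ℂ) + (β i : ℂ) * x) ^ n i)) : ∀ i ∈ s, n i = 0 := by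
  classical
  have hxQ := tr_QB hx
  have hinj : Function.Injective (aeval x : QB[X] →ₐ[QB] ℂ) := transcendental_iff_injective.mp hxQ
  set F : ι → QB[X] := fun i => C (β i) * X + C (α i) with hF
  have hFa : ∀ i, aeval x (F i) = (α i : ℂ) + (β i : ℂ) * x := by
    intro i
    simp only [hF, map_add, map_mul, aeval_C, aeval_X]
    rw [add_comm]
    rfl
  have hF0 : ∀ i ∈ s, F i ≠ 0 := by
    intro i hi h0
    have := congrArg (fun p => coeff p 1) h0
    simp [hF] at this
    exact hβ0 i hi this
  have hy0 : ∀ i ∈ s, (α i : ℂ) + (β i : ℂ) * x ≠ 0 := by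
    intro i hi h0
    rw [← hFa] at h0
    exact hF0 i hi (hinj (h0.trans (map_zero _).symm))
  set P : QB[X] := ∏ i ∈ s, F i ^ (n i).toNat with hP
  set Q : QB[X] := ∏ i ∈ s, F i ^ (-n i).toNat with hQ
  set c : ℂ := ∏ i ∈ s, ((α i : ℂ) + (β i : ℂ) * x) ^ n i with hc
  have hPa : aeval x P = ∏ i ∈ s, ((α i : ℂ) + (β i : ℂ) * x) ^ (n i).toNat := by
    rw [hP, map_prod]
    exact Finset.prod_congr rfl (fun i _ => by rw [map_pow, hFa])
  have hQa : aeval x Q = ∏ i ∈ s, ((α i : ℂ) + (β i : ℂ) * x) ^ (-n i).toNat := by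
    rw [hQ, map_prod]
    exact Finset.prod_congr rfl (fun i _ => by rw [map_pow, hFa])
  have hc0 : c ≠ 0 := by
    rw [hc]
    exact Finset.prod_ne_zero_iff.mpr (fun i hi => zpow_ne_zero _ (hy0 i hi))
  have hrel : aeval x P = c * aeval x Q := by
    rw [hPa, hQa, hc, ← Finset.prod_mul_distrib]
    refine Finset.prod_congr rfl (fun i hi => ?_)
    rw [← zpow_natCast, ← zpow_natCast, ← zpow_add₀ (hy0 i hi)]
    congr 1
    omega
  set c' : QB := ⟨c, mem_QB.mpr h⟩ with hc'
  have hPQ : P = C c' * Q := by
    apply hinj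
    change aeval x P = aeval x (C c' * Q)
    rw [map_mul, aeval_C, hrel]
    rfl
  have hc'0 : c' ≠ 0 := by
    intro h0
    apply hc0
    have := congrArg (fun z : QB => (z : ℂ)) h0
    simpa [hc'] using this
  have evF : ∀ i, ∀ ρ : QB, eval ρ (F i) = β i * ρ + α i := by
    intro i ρ
    simp [hF]
  -- a zero of `P` is no zero of `Q`
  have key : ∀ i ∈ s, ∀ j ∈ s, eval (-α i / β i) (F j) = 0 → i = j := by
    intro i hi j hj h0
    by_contra hij
    apply hne i hi j hj hij
    rw [evF] at h0
    have hb := hβ0 i hi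
    field_simp at h0
    linear_combination (-1 : QB) * h0
  intro i hi
  by_contra hni
  have hself : eval (-α i / β i) (F i) = 0 := by
    rw [evF]
    have hb := hβ0 i hi
    field_simp
    ring
  have hev := congrArg (eval (-α i / β i)) hPQ
  rw [eval_mul, eval_C] at hev
  rcases lt_or_gt_of_ne hni with hneg | hpos
  · have hQ0 : eval (-α i / β i) Q = 0 := by
      rw [hQ, eval_prod]
      refine Finset.prod_eq_zero hi ?_
      rw [eval_pow, hself]
      exact zero_pow (by omega)
    rw [hQ0, mul_zero, hP, eval_prod, Finset.prod_eq_zero_iff] at hev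
    obtain ⟨j, hj, hj0⟩ := hev
    rw [eval_pow] at hj0
    have hj1 : (n j).toNat ≠ 0 := by
      intro h0
      rw [h0, pow_zero] at hj0
      exact one_ne_zero hj0
    have := key i hi j hj (pow_eq_zero_iff hj1 |>.mp hj0)
    subst this
    omega
  · have hP0 : eval (-α i / β i) P = 0 := by
      rw [hP, eval_prod]
      refine Finset.prod_eq_zero hi ?_
      rw [eval_pow, hself]
      exact zero_pow (by omega)
    rw [hP0] at hev
    have hQ0 := (mul_eq_zero.mp hev.symm).resolve_left hc'0
    rw [hQ, eval_prod, Finset.prod_eq_zero_iff] at hQ0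
    obtain ⟨j, hj, hj0⟩ := hQ0
    rw [eval_pow] at hj0
    have hj1 : (-n j).toNat ≠ 0 := by
      intro h0
      rw [h0, pow_zero] at hj0
      exact one_ne_zero hj0
    have := key i hi j hj (pow_eq_zero_iff hj1 |>.mp hj0)
    subst this
    omega

/-- three numbers are dependent over the algebraic numbers -/
def Dep3 (y : Fin 3 → ℂ) : Prop :=
  ∃ c : Fin 3 → ℂ, (∀ j, IsAlgebraic ℚ (c j)) ∧ c ≠ 0 ∧ ∑ j, c j * y j = 0

/-- **pencils**: if any three of the numbers `s i` are dependent over the algebraic numbers and no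
quotient `s i / s j` is algebraic then the `s i` satisfy no homogeneous multiplicative relation
modulo algebraic numbers -/
theorem pencil {ι : Type*} [Fintype ι] (s : ι → ℂ) (hs0 : ∀ i, s i ≠ 0)
    (hs : ∀ i j, i ≠ j → Transcendental ℚ (s i / s j))
    (hdep : ∀ i j k, Dep3 ![s i, s j, s k]) (n : ι → ℤ) (hn : ∑ i, n i = 0)
    (h : IsAlgebraic ℚ (∏ i, s i ^ n i)) : n = 0 := by
  classical
  by_cases hsub : ∀ i j : ι, i = j
  · funext i
    have : ∑ j, n j = n i := by
      rw [Finset.sum_eq_single i]
      · intro j _ hj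
        exact absurd (hsub j i) hj
      · intro h
        exact absurd (Finset.mem_univ i) h
    rw [← this, hn]
    rfl
  push Not at hsub
  obtain ⟨i1, i0, hi⟩ := hsub
  set x : ℂ := s i1 / s i0 with hxd
  have hx : Transcendental ℚ x := hs i1 i0 hi
  have h0 := hs0 i0
  -- every `s i / s i0` is a linear form in `x`
  have hrep : ∀ i, ∃ α β : QB, s i / s i0 = (α : ℂ) + (β : ℂ) * x := by
    intro i
    obtain ⟨c, hc, hcne, hsum⟩ := hdep i0 i1 i
    rw [Fin.sum_univ_three] at hsum
    simp only [Matrix.cons_val_zero, Matrix.cons_val_one, Matrix.cons_val] at hsum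
    have hc2 : c 2 ≠ 0 := by
      intro h2
      rw [h2, zero_mul, add_zero] at hsum
      by_cases h1 : c 1 = 0
      · rw [h1, zero_mul, add_zero] at hsum
        have h00 : c 0 = 0 := (mul_eq_zero.mp hsum).resolve_right h0
        apply hcne
        funext j
        fin_cases j
        · exact h00
        · exact h1
        · exact h2
      · apply hx
        have : x = -c 0 / c 1 := by
          rw [hxd]
          field_simp
          linear_combination hsum
        rw [this, div_eq_mul_inv]
        exact (hc 0).neg.mul (hc 1).inv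
    refine ⟨⟨-c 0 / c 2, mem_QB.mpr (by rw [div_eq_mul_inv]; exact (hc 0).neg.mul (hc 2).inv)⟩,
      ⟨-c 1 / c 2, mem_QB.mpr (by rw [div_eq_mul_inv]; exact (hc 1).neg.mul (hc 2).inv)⟩, ?_⟩
    change s i / s i0 = -c 0 / c 2 + -c 1 / c 2 * x
    rw [hxd]
    field_simp
    linear_combination hsum
  choose α β hαβ using hrep
  have hprod : ∏ i, s i ^ n i = ∏ i ∈ Finset.univ.erase i0, ((α i : ℂ) + (β i : ℂ) * x) ^ n i := by
    have e1 : ∏ i, s i ^ n i = ∏ i, (s i / s i0) ^ n i := by
      have : ∏ i, (s i / s i0) ^ n i = (∏ i, s i ^ n i) / (∏ i, s i0 ^ n i) := by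
        rw [← Finset.prod_div_distrib]
        exact Finset.prod_congr rfl (fun i _ => div_zpow _ _ _)
      rw [this]
      have e2 : ∏ i, s i0 ^ n i = 1 := by
        have : ∏ i, s i0 ^ n i = s i0 ^ (∑ i, n i) := by
          induction (Finset.univ : Finset ι) using Finset.induction_on with
          | empty => simp
          | insert a t ha ih => rw [Finset.prod_insert ha, Finset.sum_insert ha, zpow_add₀ h0, ih]
        rw [this, hn, zpow_zero]
      rw [e2, div_one]
    rw [e1, ← Finset.mul_prod_erase Finset.univ _ (Finset.mem_univ i0), div_self h0, one_zpow,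
      one_mul]
    exact Finset.prod_congr rfl (fun i _ => by rw [hαβ i])
  rw [hprod] at h
  have hβ : ∀ i, i ≠ i0 → β i ≠ 0 := by
    intro i hii h1
    apply hs i i0 hii
    rw [hαβ i, h1]
    have : ((0 : QB) : ℂ) = 0 := rfl
    rw [this, zero_mul, add_zero]
    exact mem_QB.mp (α i).2
  have hall := units_pencil (Finset.univ.erase i0) hx α β (fun i hi' => hβ i (Finset.ne_of_mem_erase hi'))
    (by
      intro i hi' j hj' hij heq
      have hbi := hβ i (Finset.ne_of_mem_erase hi')
      have hbj := hβ j (Finset.ne_of_mem_erase hj')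
      have heqC : (α i : ℂ) * (β j : ℂ) = (α j : ℂ) * (β i : ℂ) := by
        exact_mod_cast congrArg (fun z : QB => (z : ℂ)) heq
      have hbiC : (β i : ℂ) ≠ 0 := by exact_mod_cast hbi
      have hbjC : (β j : ℂ) ≠ 0 := by exact_mod_cast hbj
      apply hs i j hij
      have hyj : s j / s i0 ≠ 0 := div_ne_zero (hs0 j) h0
      have : s i / s j = (β i : ℂ) / (β j : ℂ) := by
        have e3 : s i / s j = (s i / s i0) / (s j / s i0) := by
          field_simp
        rw [e3, hαβ i]
        rw [hαβ j] at hyj ⊢
        rw [div_eq_div_iff hyj hbjC]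
        linear_combination heqC
      rw [this, div_eq_mul_inv]
      exact (mem_QB.mp (β i).2).mul (mem_QB.mp (β j).2).inv) n h
  have hne : ∀ i, i ≠ i0 → n i = 0 := fun i hi' =>
    hall i (Finset.mem_erase.mpr ⟨hi', Finset.mem_univ _⟩)
  funext i
  by_cases hii : i = i0
  · subst hii
    have : ∑ j, n j = n i := by
      rw [Finset.sum_eq_single i]
      · intro j _ hj
        exact hne j hj
      · intro h
        exact absurd (Finset.mem_univ i) h
    rw [← this, hn]
    rfl
  · exact hne i hii

/-- **strong six exponentials**: the numbers `y` with `v y`, `v' y` linear forms span a space of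
dimension at most two -/
theorem dep3 {v v' : ℂ} (hv' : v' ≠ 0) (htr : Transcendental ℚ (v / v')) (y : Fin 3 → ℂ)
    (h : ∀ j, v * y j ∈ Lt) (h' : ∀ j, v' * y j ∈ Lt) : Dep3 y := by
  by_contra hcon
  refine strong_six ![v, v'] y ?_ ?_ ?_
  · intro a b ha hb hab
    simp only [Matrix.cons_val_zero, Matrix.cons_val_one] at hab
    by_cases ha0 : a = 0
    · subst ha0
      rw [zero_mul, zero_add] at hab
      exact ⟨rfl, (mul_eq_zero.mp hab).resolve_right hv'⟩
    · exfalso
      apply htr
      have : v / v' = -b / a := by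
        field_simp
        linear_combination hab
      rw [this, div_eq_mul_inv]
      exact hb.neg.mul ha.inv
  · intro c hc hsum
    by_contra hne
    push Not at hne
    obtain ⟨j, hj⟩ := hne
    exact hcon ⟨c, hc, fun h0 => hj (by rw [h0]; rfl), hsum⟩
  · intro i j
    fin_cases i
    · exact h j
    · exact h' j

/-- **Structure theorem.** If `v / v'` is transcendental, the numbers `ℓ` for which both `v e ^ ℓ`
and `v' e ^ ℓ` are linear forms in `1` and logarithms are affinely independent over `ℚ` modulo the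
logarithms of algebraic numbers. -/
theorem structureT {v v' : ℂ} (hv' : v' ≠ 0) (htr : Transcendental ℚ (v / v')) {ι : Type*}
    [Fintype ι] (l : ι → ℂ) (hl : ∀ i j, i ≠ j → Transcendental ℚ (Complex.exp (l i - l j)))
    (h : ∀ i, v * Complex.exp (l i) ∈ Lt) (h' : ∀ i, v' * Complex.exp (l i) ∈ Lt) (n : ι → ℤ)
    (hn : ∑ i, n i = 0) (halg : IsAlgebraic ℚ (Complex.exp (∑ i, (n i : ℂ) * l i))) : n = 0 := by
  refine pencil (fun i => Complex.exp (l i)) (fun i => Complex.exp_ne_zero _) ?_ ?_ n hn ?_
  · intro i j hij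
    rw [← Complex.exp_sub]
    exact hl i j hij
  · intro i j k
    refine dep3 hv' htr _ ?_ ?_
    · intro a
      fin_cases a
      · exact h i
      · exact h j
      · exact h k
    · intro a
      fin_cases a
      · exact h' i
      · exact h' j
      · exact h' k
  · have : ∏ i, Complex.exp (l i) ^ n i = Complex.exp (∑ i, (n i : ℂ) * l i) := by
      rw [Complex.exp_sum]
      exact Finset.prod_congr rfl (fun i _ => by rw [Complex.exp_int_mul])
    rw [this]
    exact halg

end Pool.Agent.D0H4.Gam
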