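import Pool.Agent.D0H4.Gam.Baker

/-!
# Real towers `a ^ (b₁ ^ x₁ ⋯ bₖ ^ xₖ)`
-/

set_option autoImplicit false

namespace Pool.Agent.D0H4.Gam

open Finset Pool.Agent.H301R2.SSE

theorem algC {x : ℝ} : IsAlgebraic ℚ (x : ℂ) ↔ IsAlgebraic ℚ x :=
  isAlgebraic_algebraMap_iff (algebraMap ℝ ℂ).injective

theorem trC {x : ℝ} : Transcendental ℚ (x : ℂ) ↔ Transcendental ℚ x := not_congr algC

/-- complex logarithms of the `bᵢ` -/
noncomputable def lg {k : ℕ} (b : Fin k → ℝ) (i : Fin k) : ℂ := ((Real.log (b i) : ℝ) : ℂ)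

theorem exp_lg {k : ℕ} {b : Fin k → ℝ} (hb : ∀ i, 0 < b i) (i : Fin k) :
    Complex.exp (lg b i) = (b i : ℂ) := by
  unfold lg
  rw [← Complex.ofReal_exp, Real.exp_log (hb i)]

theorem lg_alg {k : ℕ} {b : Fin k → ℝ} (hb : ∀ i, 0 < b i) (hba : ∀ i, IsAlgebraic ℚ (b i))
    (i : Fin k) : IsAlgebraic ℚ (Complex.exp (lg b i)) := by
  rw [exp_lg hb]
  exact algC.mpr (hba i)

/-- the linear form `∑ xᵢ log bᵢ` -/
noncomputable def lf {k : ℕ} (b x : Fin k → ℝ) : ℂ := ∑ i, (x i : ℂ) * lg b i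

theorem prod_rpow {k : ℕ} {b : Fin k → ℝ} (hb : ∀ i, 0 < b i) (x : Fin k → ℝ) :
    ((∏ i, b i ^ x i : ℝ) : ℂ) = Complex.exp (lf b x) := by
  unfold lf lg
  rw [Complex.exp_sum]
  push_cast
  refine prod_congr rfl (fun i _ => ?_)
  rw [Real.rpow_def_of_pos (hb i)]
  push_cast
  rw [mul_comm]

theorem log_tower {k : ℕ} {a : ℝ} (ha : 0 < a) {b : Fin k → ℝ} (hb : ∀ i, 0 < b i)
    (x : Fin k → ℝ) : ((Real.log (a ^ (∏ i, b i ^ x i)) : ℝ) : ℂ) =
      ((Real.log a : ℝ) : ℂ) * Complex.exp (lf b x) := by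
  rw [Real.log_rpow ha, Complex.ofReal_mul, prod_rpow hb, mul_comm]

theorem lg_indep {k : ℕ} {b : Fin k → ℝ} (hb : ∀ i, 0 < b i)
    (hm : ∀ n : Fin k → ℤ, ∏ i, b i ^ n i = 1 → n = 0) : LinearIndependent ℚ (lg b) := by
  rw [← LinearIndependent.iff_fractionRing ℤ ℚ]
  rw [Fintype.linearIndependent_iff]
  intro n hn
  have h1 : ∏ i, b i ^ n i = 1 := by
    have h2 : Complex.exp (∑ i, n i • lg b i) = 1 := by rw [hn, Complex.exp_zero]
    rw [Complex.exp_sum] at h2
    have h3 : ((∏ i, b i ^ n i : ℝ) : ℂ) = 1 := by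
      rw [← h2]
      push_cast
      refine prod_congr rfl (fun i _ => ?_)
      rw [zsmul_eq_mul, Complex.exp_int_mul, exp_lg hb]
    exact_mod_cast h3
  have := hm n h1
  intro i
  rw [this]
  rfl

/-- congruence modulo `ℚ ^ k` -/
def Cong {k : ℕ} (x y : Fin k → ℝ) : Prop := ∀ i, ∃ q : ℚ, x i - y i = q

theorem lf_sub {k : ℕ} (b x y : Fin k → ℝ) : lf b x - lf b y = lf b (x - y) := by
  unfold lf
  rw [← sum_sub_distrib]
  refine sum_congr rfl (fun i _ => ?_)
  rw [Pi.sub_apply]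
  push_cast
  ring

theorem lf_add {k : ℕ} (b x y : Fin k → ℝ) : lf b (x + y) = lf b x + lf b y := by
  unfold lf
  rw [← sum_add_distrib]
  refine sum_congr rfl (fun i _ => ?_)
  rw [Pi.add_apply]
  push_cast
  ring

theorem tr_of {k : ℕ} {b : Fin k → ℝ} (hb : ∀ i, 0 < b i) (hba : ∀ i, IsAlgebraic ℚ (b i))
    (hm : ∀ n : Fin k → ℤ, ∏ i, b i ^ n i = 1 → n = 0) {x : Fin k → ℝ}
    (hx : ∀ i, IsAlgebraic ℚ (x i)) (h : ¬ ∀ i, ∃ q : ℚ, x i = q) :
    Transcendental ℚ (Complex.exp (lf b x)) := by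
  intro halg
  apply h
  have := (baker_exp (lg b) (lg_alg hb hba) (lg_indep hb hm) 0 isAlgebraic_zero
    (fun i => (x i : ℂ)) (fun i => algC.mpr (hx i)) (by rw [zero_add]; exact halg)).2
  intro i
  obtain ⟨q, hq⟩ := this i
  exact ⟨q, by exact_mod_cast hq⟩

theorem alg_of {k : ℕ} {b : Fin k → ℝ} (hb : ∀ i, 0 < b i) (hba : ∀ i, IsAlgebraic ℚ (b i))
    {x : Fin k → ℝ} (h : ∀ i, ∃ q : ℚ, x i = q) : IsAlgebraic ℚ (Complex.exp (lf b x)) := by
  choose q hq using h
  have := mul_rat (lg b) (lg_alg hb hba) q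
  unfold lf
  have e : ∀ i, (x i : ℂ) = (q i : ℂ) := by
    intro i
    rw [hq i]
    push_cast
    rfl
  simp only [e]
  exact this

theorem lf_sum {k : ℕ} {ι : Type*} [Fintype ι] (b : Fin k → ℝ) (n : ι → ℤ) (x : ι → Fin k → ℝ) :
    ∑ j, (n j : ℂ) * lf b (x j) = lf b (fun i => ∑ j, (n j : ℝ) * x j i) := by
  unfold lf
  simp only [mul_sum]
  rw [sum_comm]
  refine sum_congr rfl (fun i _ => ?_)
  push_cast
  rw [sum_mul]
  exact sum_congr rfl (fun j _ => by ring)

/-- **Towers with two bases**: affine independence of the exceptional exponents -/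
theorem two_bases {k : ℕ} {b : Fin k → ℝ} (hb : ∀ i, 0 < b i) (hba : ∀ i, IsAlgebraic ℚ (b i))
    (hm : ∀ n : Fin k → ℤ, ∏ i, b i ^ n i = 1 → n = 0) {v v' : ℂ} (hv' : v' ≠ 0)
    (htr : Transcendental ℚ (v / v')) {ι : Type*} [Fintype ι] (x : ι → Fin k → ℝ)
    (hx : ∀ j i, IsAlgebraic ℚ (x j i)) (hne : ∀ i j, i ≠ j → ¬ Cong (x i) (x j))
    (h : ∀ j, v * Complex.exp (lf b (x j)) ∈ Lt) (h' : ∀ j, v' * Complex.exp (lf b (x j)) ∈ Lt)
    (n : ι → ℤ) (hn : ∑ j, n j = 0) (hq : ∀ i, ∃ q : ℚ, ∑ j, (n j : ℝ) * x j i = q) : n = 0 := by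
  refine structureT hv' htr (fun j => lf b (x j)) ?_ h h' n hn ?_
  · intro i j hij
    rw [lf_sub]
    exact tr_of hb hba hm (fun l => (hx i l).sub (hx j l)) (hne i j hij)
  · rw [lf_sum]
    exact alg_of hb hba hq

/-- an affinely independent family in `K ^ k / ℚ ^ k` -/
theorem card_field {k d : ℕ} (K : IntermediateField ℚ ℝ) [FiniteDimensional ℚ K]
    (hd : Module.finrank ℚ K = d) {ι : Type} [Fintype ι] (x : ι → Fin k → ℝ)
    (hx : ∀ j i, x j i ∈ K) (haff : ∀ n : ι → ℤ, ∑ j, n j = 0 →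
      (∀ i, ∃ q : ℚ, ∑ j, (n j : ℝ) * x j i = q) → n = 0) :
    Fintype.card ι ≤ k * (d - 1) + 1 := by
  by_contra hcon
  push Not at hcon
  set U : Submodule ℚ K := Submodule.span ℚ {(1 : K)} with hU
  have hfU : Module.finrank ℚ U = 1 := finrank_span_singleton one_ne_zero
  have hfq : Module.finrank ℚ (K ⧸ U) = d - 1 := by
    have := Submodule.finrank_quotient_add_finrank U
    omega
  let w : ι → ℚ × (Fin k → K ⧸ U) := fun j => (1, fun i => U.mkQ ⟨x j i, hx j i⟩)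
  have hnl : ¬ LinearIndependent ℚ w := by
    intro hl
    have := hl.fintype_card_le_finrank
    rw [Module.finrank_prod, Module.finrank_self, Module.finrank_pi_fintype] at this
    simp only [hfq, sum_const, card_univ, Fintype.card_fin, smul_eq_mul] at this
    omega
  rw [← LinearIndependent.iff_fractionRing ℤ ℚ, Fintype.not_linearIndependent_iff] at hnl
  obtain ⟨n, hn, j0, hj0⟩ := hnl
  apply hj0
  have h1 : ∑ j, n j = 0 := by
    have := congrArg Prod.fst hn
    rw [Prod.fst_sum] at this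
    simp only [w, Prod.smul_mk, Prod.fst_zero] at this
    have h2 : ((∑ j, n j : ℤ) : ℚ) = 0 := by
      push_cast
      rw [← this]
      exact sum_congr rfl (fun j _ => by simp)
    exact_mod_cast h2
  have := haff n h1 (by
    intro i
    have h2 := congrFun (congrArg Prod.snd hn) i
    rw [Prod.snd_sum, Finset.sum_apply] at h2
    simp only [w, Prod.smul_mk, Pi.smul_apply] at h2
    have h3 : U.mkQ (∑ j, n j • (⟨x j i, hx j i⟩ : K)) = 0 := by
      rw [map_sum]
      simp only [map_zsmul]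
      exact h2
    rw [Submodule.mkQ_apply, Submodule.Quotient.mk_eq_zero, hU, Submodule.mem_span_singleton] at h3
    obtain ⟨q, hq⟩ := h3
    refine ⟨q, ?_⟩
    have h4 := congrArg (fun z : K => (z : ℝ)) hq
    have h5 : ((∑ j, n j • (⟨x j i, hx j i⟩ : K) : K) : ℝ) = ∑ j, (n j : ℝ) * x j i := by
      rw [show ((∑ j, n j • (⟨x j i, hx j i⟩ : K) : K) : ℝ) =
        ∑ j, ((n j • (⟨x j i, hx j i⟩ : K) : K) : ℝ) from map_sum (algebraMap K ℝ) _ _]
      refine sum_congr rfl (fun j _ => ?_)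
      rw [zsmul_eq_mul]
      push_cast
      rfl
    rw [← h5, ← h4]
    change ((q • (1 : K) : K) : ℝ) = (q : ℝ)
    rw [Algebra.smul_def, mul_one]
    rfl)
  rw [this]
  rfl

open Classical in
/-- **Counting for one base** -/
theorem count_tower {k d : ℕ} {b : Fin k → ℝ} (hb : ∀ i, 0 < b i) (hba : ∀ i, IsAlgebraic ℚ (b i))
    (hm : ∀ n : Fin k → ℤ, ∏ i, b i ^ n i = 1 → n = 0) (ω : Fin d → ℝ)
    (hω : ∀ j, IsAlgebraic ℚ (ω j))
    (hωi : ∀ (q : ℚ) (n : Fin d → ℤ), ∑ j, (n j : ℝ) * ω j = q → n = 0) {v : ℂ} (hv : v ≠ 0)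
    (N : ℕ) :
    (#{n : Fin k → Fin d → Fin N | ∃ q : Fin k → ℚ, v * Complex.exp
      (lf b (fun i => (q i : ℝ) + ∑ j, ((n i j : ℕ) : ℝ) * ω j)) ∈ Lt} : ℝ) ≤
      1 + Real.sqrt ((k * d + 1) * (2 * N) ^ (k * d)) := by
  set l : Fin k × Fin d → ℂ := fun p => (ω p.2 : ℂ) * lg b p.1 with hl
  have hlin : ∀ m : Fin k × Fin d → ℤ, lin l m =
      lf b (fun i => ∑ j, (m (i, j) : ℝ) * ω j) := by
    intro m
    unfold lin lf
    rw [Fintype.sum_prod_type]
    refine sum_congr rfl (fun i _ => ?_)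
    push_cast
    rw [sum_mul]
    refine sum_congr rfl (fun j _ => ?_)
    simp only [hl]
    ring
  have htr : ∀ m : Fin k × Fin d → ℤ, m ≠ 0 → Transcendental ℚ (Complex.exp (lin l m)) := by
    intro m hm0
    rw [hlin]
    refine tr_of hb hba hm ?_ ?_
    · intro i
      rw [← mem_algebraicClosure_iff (F := ℚ) (E := ℝ)]
      refine sum_mem (fun j _ => mul_mem ?_ (mem_algebraicClosure_iff.mpr (hω j)))
      exact intCast_mem _ _
    · intro hall
      apply hm0
      funext p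
      obtain ⟨q, hq⟩ := hall p.1
      have := hωi q (fun j => m (p.1, j)) hq
      exact congrFun this p.2
  have hmain := count_box l htr hv N
  rw [Fintype.card_prod, Fintype.card_fin, Fintype.card_fin] at hmain
  push_cast at hmain
  refine le_trans ?_ hmain
  have : #{n : Fin k → Fin d → Fin N | ∃ q : Fin k → ℚ, v * Complex.exp
      (lf b (fun i => (q i : ℝ) + ∑ j, ((n i j : ℕ) : ℝ) * ω j)) ∈ Lt} ≤
      #{n ∈ box (Fin k × Fin d) N | v * Complex.exp (lin l n) ∈ Lt} := by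
    refine card_le_card_of_injOn (fun n p => ((n p.1 p.2 : ℕ) : ℤ)) ?_ ?_
    · intro n hn
      simp only [coe_filter, mem_univ, true_and, Set.mem_setOf_eq] at hn ⊢
      constructor
      · unfold box
        rw [Fintype.mem_piFinset]
        intro p
        rw [mem_Ico]
        constructor
        · exact Int.natCast_nonneg _
        · exact_mod_cast (n p.1 p.2).2
      · obtain ⟨q, hq⟩ := hn
        rw [hlin]
        have e : (fun i => (q i : ℝ) + ∑ j, ((n i j : ℕ) : ℝ) * ω j) =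
            (fun i => (q i : ℝ)) + (fun i => ∑ j, ((n i j : ℕ) : ℝ) * ω j) := rfl
        rw [e, lf_add, Complex.exp_add] at hq
        have halg : IsAlgebraic ℚ (Complex.exp (lf b (fun i => (q i : ℝ)))) :=
          alg_of hb hba (fun i => ⟨q i, rfl⟩)
        have h1 : Complex.exp (lf b (fun i => (q i : ℝ))) *
            (v * Complex.exp (lf b (fun i => ∑ j, ((n i j : ℕ) : ℝ) * ω j))) ∈ Lt := by
          convert hq using 1
          ring
        rw [Lt_mul_iff halg (Complex.exp_ne_zero _)] at h1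
        have e2 : lf b (fun i => ∑ j, (((n i j : ℕ) : ℤ) : ℝ) * ω j) =
            lf b (fun i => ∑ j, ((n i j : ℕ) : ℝ) * ω j) := by
          simp only [Int.cast_natCast]
        rw [← e2] at h1
        exact h1
    · intro n _ m _ hnm
      funext i j
      have := congrFun hnm (i, j)
      simp only at this
      apply Fin.ext
      exact_mod_cast this
  exact_mod_cast this

end Pool.Agent.D0H4.Gam
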